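import Pool.Agent.Helper45.SP.GoalsF
import Pool.Agent.Helper27.Lin.Montel

set_option autoImplicit false

open Complex Metric Set Filter Topology
open scoped ContDiff ComplexConjugate

namespace Pool.Agent.Helper6.SP

open Pool.Agent.Helper95.Lin Pool.Agent.Helper10.SP Pool.Agent.Helper45.SP

/-- A compact subset of an open ball is in a smaller closed ball. -/
theorem compact_sub_ball {b : ℕ} (z₀ : Cn b) (r : ℝ) (hr : 0 < r) (K : Set (Cn b))
    (hK : K ⊆ ball z₀ r) (hKc : IsCompact K) : ∃ ρ, 0 < ρ ∧ ρ < r ∧ K ⊆ ball z₀ ρ := by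
  rcases K.eq_empty_or_nonempty with h | h
  · exact ⟨r / 2, by linarith, by linarith, by rw [h]; exact empty_subset _⟩
  · obtain ⟨w, hw, hmax⟩ := hKc.exists_isMaxOn h (continuous_id.dist continuous_const).continuousOn
      (f := fun z => dist z z₀)
    have h1 : dist w z₀ < r := hK hw
    refine ⟨(dist w z₀ + r) / 2, by linarith [dist_nonneg (x := w) (y := z₀)], by linarith, ?_⟩
    intro z hz
    have h2 : dist z z₀ ≤ dist w z₀ := hmax hz
    rw [mem_ball]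
    linarith

theorem LSUB (hLCMP : S_LCMP') (hLSCALE : S_LSCALE) : S_LSUB := by
  intro b z₀ r A hG x ρ₀ hρ₀ hsub t τ htA hτ hτ0 hC
  obtain ⟨C, hC⟩ := hC
  obtain ⟨C2, hC2⟩ := hG.bdd
  have hr := hG.pos
  have hC0 : 0 ≤ C := by
    have h1 := hC 0 x (mem_ball_self hρ₀)
    have h2 := (norm_nonneg _).trans h1
    by_contra h
    push Not at h
    nlinarith [hτ 0]
  obtain ⟨f, hf⟩ : ∃ f : ℕ → Cn b → Cn b, f = fun k z => (τ k)⁻¹ • ((t k).g z - z) := ⟨_, rfl⟩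
  have hfd : ∀ k, DifferentiableOn ℂ (f k) (ball z₀ r) := by
    intro k
    rw [hf]
    exact ((hG.g_holo _ (htA k)).sub differentiableOn_id).const_smul ((τ k)⁻¹)
  have hfb : ∀ K ⊆ ball z₀ r, IsCompact K → ∃ C : ℝ, ∀ k, ∀ z ∈ K, ‖f k z‖ ≤ C := by
    intro K hK hKc
    obtain ⟨ρ, hρ, hρr, hKρ⟩ := compact_sub_ball z₀ r hr K hK hKc
    obtain ⟨C1, η, hC1, hη, hcmp⟩ := hLCMP hG x ρ₀ hρ₀ hsub ρ hρr
    have hev : ∀ᶠ k in atTop, C * τ k ≤ η := by
      have h1 : Tendsto (fun k => C * τ k) atTop (𝓝 (C * 0)) := hτ0.const_mul C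
      rw [mul_zero] at h1
      exact h1.eventually (eventually_le_nhds hη)
    obtain ⟨N, hN⟩ := eventually_atTop.1 hev
    have hC2' : 0 ≤ C2 := (norm_nonneg _).trans (hC2 (t 0) (htA 0) z₀ (mem_ball_self hr))
    have hpos : ∀ k, 0 ≤ (τ k)⁻¹ * (C2 + (‖z₀‖ + r)) := fun k =>
      mul_nonneg (inv_nonneg.2 (hτ k).le) (by positivity)
    refine ⟨∑ k ∈ Finset.range N, (τ k)⁻¹ * (C2 + (‖z₀‖ + r)) + C1 * C, ?_⟩
    intro k z hz
    rw [hf]
    simp only
    rw [norm_smul, norm_inv, Real.norm_eq_abs, abs_of_pos (hτ k)]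
    rcases lt_or_ge k N with h | h
    · have h1 : ‖(t k).g z - z‖ ≤ C2 + (‖z₀‖ + r) := by
        have h2 : ‖z‖ ≤ ‖z₀‖ + r := by
          have h3 := mem_ball_iff_norm.1 (hK hz)
          have h4 : ‖z‖ ≤ ‖z - z₀‖ + ‖z₀‖ := norm_le_norm_sub_add z z₀
          linarith
        refine (norm_sub_le _ _).trans ?_
        exact add_le_add (hC2 _ (htA k) z (hK hz)) h2
      have h2 : (τ k)⁻¹ * (C2 + (‖z₀‖ + r)) ≤
          ∑ k ∈ Finset.range N, (τ k)⁻¹ * (C2 + (‖z₀‖ + r)) :=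
        Finset.single_le_sum (fun i _ => hpos i) (Finset.mem_range.2 h)
      have h3 := mul_le_mul_of_nonneg_left h1 (inv_nonneg.2 (hτ k).le)
      have h4 : 0 ≤ C1 * C := mul_nonneg hC1 hC0
      linarith
    · have h1 := hcmp (t k) (htA k) (C * τ k) (hN k h) (hC k) z (hKρ hz)
      have h3 := mul_le_mul_of_nonneg_left h1 (inv_nonneg.2 (hτ k).le)
      have h4 : (τ k)⁻¹ * (C1 * (C * τ k)) = C1 * C := by
        have := (hτ k).ne'
        field_simp
      have h5 : 0 ≤ ∑ k ∈ Finset.range N, (τ k)⁻¹ * (C2 + (‖z₀‖ + r)) :=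
        Finset.sum_nonneg fun i _ => hpos i
      linarith
  obtain ⟨φ, hφ, F, hFd, hF⟩ := _root_.Helper27.LinMontel.montel (ball z₀ r) isOpen_ball f hfd hfb
  classical
  obtain ⟨V, hV⟩ : ∃ V : Cn b → Cn b, V = fun z => if z ∈ ball z₀ r then F z else 0 := ⟨_, rfl⟩
  have hVF : ∀ z ∈ ball z₀ r, V z = F z := by
    intro z hz
    rw [hV]
    exact if_pos hz
  have hV0 : ∀ z, z ∉ ball z₀ r → V z = 0 := by
    intro z hz
    rw [hV]
    exact if_neg hz
  have hVd : DifferentiableOn ℂ V (ball z₀ r) := hFd.congr hVF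
  have hlim : ∀ ρ < r, ∀ ε > 0, ∀ᶠ k in atTop,
      ∀ z ∈ ball z₀ ρ, ‖(t (φ k)).g z - z - τ (φ k) • V z‖ ≤ ε * τ (φ k) := by
    intro ρ hρ ε hε
    have h1 := hF (closedBall z₀ ρ) (closedBall_subset_ball hρ) (isCompact_closedBall z₀ ρ) ε hε
    filter_upwards [h1] with k hk z hz
    have hz1 : z ∈ closedBall z₀ ρ := ball_subset_closedBall hz
    have hz2 : z ∈ ball z₀ r := closedBall_subset_ball hρ hz1
    have h2 := hk z hz1
    have h3 : (t (φ k)).g z - z - τ (φ k) • V z = τ (φ k) • (f (φ k) z - F z) := by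
      rw [hVF z hz2, hf, smul_sub, smul_smul, mul_inv_cancel₀ (hτ _).ne', one_smul]
    rw [h3, norm_smul, Real.norm_eq_abs, abs_of_pos (hτ _), mul_comm ε]
    exact mul_le_mul_of_nonneg_left h2 (hτ _).le
  refine ⟨φ, hφ, V, ?_, hlim⟩
  exact hLSCALE hG (fun k => t (φ k)) (fun k => τ (φ k)) V (fun k => htA _) (fun k => hτ _)
    (hτ0.comp hφ.tendsto_atTop) hVd hV0 hlim

end Pool.Agent.Helper6.SP
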